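import Mathlib
import Pool.Agent.Helper82.PN.GoalsR

/-!
# Project PN: bodies with homothetic sections are bodies (packet PN-REVB)
-/

set_option autoImplicit false

open MeasureTheory Set
open scoped ENNReal
open Pool.Agent.Helper47.AQ
open Pool.Agent.Helper82.PN

namespace Pool.Agent.Helper23.PN

lemma klr_convex {ι : Type} (B : Set (ι → ℝ)) (L R : ℝ → ℝ) (hB : Convex ℝ B) (hL : Prof L)
    (hR : Prof R) : Convex ℝ (KLR B L R) := by
  rintro z ⟨s, hs, ⟨b, hb, hz⟩, hz1, hz2⟩ z' ⟨s', hs', ⟨b', hb', hz'⟩, hz1', hz2'⟩ t t' ht ht' htt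
  have hts : 0 ≤ t * s := mul_nonneg ht hs.1
  have hts' : 0 ≤ t' * s' := mul_nonneg ht' hs'.1
  have hmem : t * s + t' * s' ∈ Icc (0 : ℝ) 1 := by
    refine ⟨by linarith, ?_⟩
    have h1 : t * s ≤ t * 1 := mul_le_mul_of_nonneg_left hs.2 ht
    have h2 : t' * s' ≤ t' * 1 := mul_le_mul_of_nonneg_left hs'.2 ht'
    linarith
  refine ⟨t * s + t' * s', hmem, ?_, ?_, ?_⟩
  · by_cases h0 : t * s + t' * s' = 0
    · have h1 : t * s = 0 := by linarith
      have h2 : t' * s' = 0 := by linarith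
      refine ⟨b, hb, fun i => ?_⟩
      rw [h0, zero_mul]
      simp only [Pi.add_apply, Pi.smul_apply, smul_eq_mul]
      rw [hz i, hz' i, ← mul_assoc, ← mul_assoc, h1, h2, zero_mul, zero_mul, add_zero]
    · have hpos : 0 < t * s + t' * s' := lt_of_le_of_ne (by linarith) (Ne.symm h0)
      refine ⟨(t * s / (t * s + t' * s')) • b + (t' * s' / (t * s + t' * s')) • b',
        hB hb hb' (div_nonneg hts hpos.le) (div_nonneg hts' hpos.le) ?_, fun i => ?_⟩
      · rw [← add_div, div_self h0]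
      · simp only [Pi.add_apply, Pi.smul_apply, smul_eq_mul]
        rw [hz i, hz' i]
        field_simp
  · have h1 := hL.conc.2 hs hs' ht ht' htt
    simp only [smul_eq_mul] at h1
    simp only [Pi.add_apply, Pi.smul_apply, smul_eq_mul]
    have h2 : t * -(L s) ≤ t * z (Sum.inr ()) := mul_le_mul_of_nonneg_left hz1 ht
    have h3 : t' * -(L s') ≤ t' * z' (Sum.inr ()) := mul_le_mul_of_nonneg_left hz1' ht'
    linarith
  · have h1 := hR.conc.2 hs hs' ht ht' htt
    simp only [smul_eq_mul] at h1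
    simp only [Pi.add_apply, Pi.smul_apply, smul_eq_mul]
    have h2 : t * z (Sum.inr ()) ≤ t * R s := mul_le_mul_of_nonneg_left hz2 ht
    have h3 : t' * z' (Sum.inr ()) ≤ t' * R s' := mul_le_mul_of_nonneg_left hz2' ht'
    linarith

/-- the parametrisation -/
noncomputable def par {ι : Type} (L R : ℝ → ℝ) (p : (ι → ℝ) × ℝ × ℝ) : ι ⊕ Unit → ℝ :=
  Sum.elim (fun i => p.2.1 * p.1 i) (fun _ => -((1 - p.2.2) * L p.2.1) + p.2.2 * R p.2.1)

lemma klr_eq {ι : Type} (B : Set (ι → ℝ)) (L R : ℝ → ℝ) (hL : Prof L) (hR : Prof R) :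
    KLR B L R = par L R '' (B ×ˢ (Icc (0 : ℝ) 1 ×ˢ Icc (0 : ℝ) 1)) := by
  ext z
  constructor
  · rintro ⟨s, hs, ⟨b, hb, hz⟩, hz1, hz2⟩
    have hl := hL.nonneg s hs
    have hr := hR.nonneg s hs
    obtain ⟨t, ht, hx⟩ : ∃ t ∈ Icc (0 : ℝ) 1,
        -((1 - t) * L s) + t * R s = z (Sum.inr ()) := by
      by_cases h0 : L s + R s = 0
      · have h1 : L s = 0 := by linarith
        have h2 : R s = 0 := by linarith
        refine ⟨0, ⟨le_refl _, zero_le_one⟩, ?_⟩
        rw [h1] at hz1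
        rw [h2] at hz2
        rw [h1, h2]
        linarith
      · have hpos : 0 < L s + R s := lt_of_le_of_ne (by linarith) (Ne.symm h0)
        refine ⟨(z (Sum.inr ()) + L s) / (L s + R s), ⟨div_nonneg (by linarith) hpos.le, ?_⟩, ?_⟩
        · rw [div_le_one hpos]
          linarith
        · field_simp
          ring
    refine ⟨(b, s, t), ⟨hb, hs, ht⟩, ?_⟩
    ext j
    rcases j with i | u
    · exact (hz i).symm
    · exact hx
  · rintro ⟨⟨b, s, t⟩, ⟨hb, hs, ht⟩, rfl⟩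
    simp only at hb hs ht
    have hl := hL.nonneg s hs
    have hr := hR.nonneg s hs
    refine ⟨s, hs, ⟨b, hb, fun i => rfl⟩, ?_, ?_⟩
    · change -(L s) ≤ -((1 - t) * L s) + t * R s
      have h1 : 0 ≤ t * L s := mul_nonneg ht.1 hl
      have h2 : 0 ≤ t * R s := mul_nonneg ht.1 hr
      linarith
    · change -((1 - t) * L s) + t * R s ≤ R s
      have h1 : 0 ≤ (1 - t) * L s := mul_nonneg (by linarith [ht.2]) hl
      have h2 : 0 ≤ (1 - t) * R s := mul_nonneg (by linarith [ht.2]) hr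
      linarith

lemma par_cont {ι : Type} (B : Set (ι → ℝ)) (L R : ℝ → ℝ) (hL : Prof L)
    (hR : Prof R) : ContinuousOn (par (ι := ι) L R) (B ×ˢ (Icc (0 : ℝ) 1 ×ˢ Icc (0 : ℝ) 1)) := by
  apply continuousOn_pi.mpr
  intro j
  rcases j with i | u
  · apply Continuous.continuousOn
    change Continuous (fun p : (ι → ℝ) × ℝ × ℝ => p.2.1 * p.1 i)
    fun_prop
  · change ContinuousOn (fun p : (ι → ℝ) × ℝ × ℝ =>
      -((1 - p.2.2) * L p.2.1) + p.2.2 * R p.2.1) _
    have hm : MapsTo (fun p : (ι → ℝ) × ℝ × ℝ => p.2.1) (B ×ˢ (Icc (0 : ℝ) 1 ×ˢ Icc (0 : ℝ) 1))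
        (Icc 0 1) := fun p hp => hp.2.1
    have hp1 : ContinuousOn (fun p : (ι → ℝ) × ℝ × ℝ => p.2.1)
        (B ×ˢ (Icc (0 : ℝ) 1 ×ˢ Icc (0 : ℝ) 1)) := by
      apply Continuous.continuousOn; fun_prop
    have hp2 : ContinuousOn (fun p : (ι → ℝ) × ℝ × ℝ => p.2.2)
        (B ×ˢ (Icc (0 : ℝ) 1 ×ˢ Icc (0 : ℝ) 1)) := by
      apply Continuous.continuousOn; fun_prop
    have hLc := hL.cont.comp hp1 hm
    have hRc := hR.cont.comp hp1 hm
    exact (((continuousOn_const.sub hp2).mul hLc).neg).add (hp2.mul hRc)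

theorem gREVB : REVB := by
  intro ι _ B L R hB hL hR hpos
  refine ⟨klr_convex B L R hB.conv hL hR, ?_, ?_⟩
  · rw [klr_eq B L R hL hR]
    exact (hB.comp.prod (isCompact_Icc.prod isCompact_Icc)).image_of_continuousOn
      (par_cont B L R hL hR)
  · have h0 : (0 : ℝ) ∈ Icc (0 : ℝ) 1 := ⟨le_refl _, zero_le_one⟩
    have h1 : (1 : ℝ) ∈ Icc (0 : ℝ) 1 := ⟨zero_le_one, le_refl _⟩
    have hh : (1 / 2 : ℝ) ∈ Icc (0 : ℝ) 1 := ⟨by norm_num, by norm_num⟩
    have eL := hL.conc.2 h0 h1 (by norm_num : (0 : ℝ) ≤ 1 / 2) (by norm_num : (0 : ℝ) ≤ 1 / 2)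
      (by norm_num)
    have eR := hR.conc.2 h0 h1 (by norm_num : (0 : ℝ) ≤ 1 / 2) (by norm_num : (0 : ℝ) ≤ 1 / 2)
      (by norm_num)
    simp only [smul_eq_mul, mul_zero, mul_one, zero_add] at eL eR
    have nL := hL.nonneg 1 h1
    have nR := hR.nonneg 1 h1
    have hsum : 0 < L (1 / 2) + R (1 / 2) := by linarith
    let V : Set (ι ⊕ Unit → ℝ) :=
      {z | (fun i => 2 * z (Sum.inl i)) ∈ interior B} ∩
        {z | z (Sum.inr ()) ∈ Ioo (-(L (1 / 2))) (R (1 / 2))}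
    have hVo : IsOpen V := by
      apply IsOpen.inter
      · apply isOpen_interior.preimage
        fun_prop
      · apply isOpen_Ioo.preimage
        fun_prop
    have hVs : V ⊆ KLR B L R := by
      rintro z ⟨hz1, hz2⟩
      refine ⟨1 / 2, hh, ⟨_, interior_subset hz1, fun i => ?_⟩, hz2.1.le, hz2.2.le⟩
      ring
    obtain ⟨b, hb⟩ := hB.int
    refine ⟨Sum.elim (fun i => b i / 2) (fun _ => (R (1 / 2) - L (1 / 2)) / 2),
      interior_maximal hVs hVo ⟨?_, ?_⟩⟩
    · have e : (fun i => 2 * (Sum.elim (fun i => b i / 2)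
          (fun _ : Unit => (R (1 / 2) - L (1 / 2)) / 2) (Sum.inl i))) = b := by
        funext i
        rw [Sum.elim_inl]
        ring
      change (fun i => 2 * (Sum.elim (fun i => b i / 2)
          (fun _ : Unit => (R (1 / 2) - L (1 / 2)) / 2) (Sum.inl i))) ∈ interior B
      rw [e]
      exact hb
    · change (R (1 / 2) - L (1 / 2)) / 2 ∈ Ioo (-(L (1 / 2))) (R (1 / 2))
      constructor <;> linarith

end Pool.Agent.Helper23.PN
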